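import Pool.Agent.Helper8.Sey.Goals

/-!
# Project SEY (MP_b6b2d3_co): packet SEY-GREEDY, greedy colouring of the parts
-/

namespace Pool.Agent.Helper3.Sey

open Pool.Agent.Helper8.Sey

theorem goalGREEDY : GoalGREEDY := by
  intro V _ H K part D hNB
  classical
  have key : ∀ S : Finset V, ∃ κ : V → ℕ, (∀ v, κ v ≤ D) ∧
      ∀ u ∈ S, ∀ v ∈ S, H.Adj u v → part u = part v → κ u ≠ κ v := by
    intro S
    induction S using Finset.induction_on with
    | empty => exact ⟨fun _ => 0, fun v => Nat.zero_le _, fun u hu => absurd hu (by simp)⟩
    | insert w S hw ih =>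
      obtain ⟨κ, hκ, hS⟩ := ih
      -- the forbidden colours
      let N : Finset V := Finset.univ.filter fun u => H.Adj w u ∧ part u = part w
      have hN : N.card ≤ D := by
        have h := hNB.2 w (part w) (hNB.1 w) (Or.inl rfl)
        rwa [Nat.card_eq_fintype_card, Fintype.card_subtype] at h
      have hlt : (N.image κ).card < (Finset.range (D + 1)).card := by
        rw [Finset.card_range]
        exact lt_of_le_of_lt Finset.card_image_le (Nat.lt_succ_of_le hN)
      obtain ⟨c, hc, hcN⟩ := Finset.exists_mem_notMem_of_card_lt_card hlt
      have hcD : c ≤ D := Nat.lt_succ_iff.1 (Finset.mem_range.1 hc)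
      have hfree : ∀ u, H.Adj w u → part u = part w → κ u ≠ c := by
        intro u hu hp he
        exact hcN (Finset.mem_image.2 ⟨u, Finset.mem_filter.2 ⟨Finset.mem_univ _, hu, hp⟩, he⟩)
      refine ⟨Function.update κ w c, ?_, ?_⟩
      · intro v
        by_cases hv : v = w
        · subst hv; rw [Function.update_self]; exact hcD
        · rw [Function.update_of_ne hv]; exact hκ v
      · intro u hu v hv huv hp
        by_cases huw : u = w
        · subst huw
          have hvu : v ≠ u := huv.ne'
          rw [Function.update_self, Function.update_of_ne hvu]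
          exact (hfree v huv hp.symm).symm
        · rw [Function.update_of_ne huw]
          by_cases hvw : v = w
          · subst hvw
            rw [Function.update_self]
            exact hfree u huv.symm hp
          · rw [Function.update_of_ne hvw]
            exact hS u (Finset.mem_of_mem_insert_of_ne hu huw) v
              (Finset.mem_of_mem_insert_of_ne hv hvw) huv hp
  obtain ⟨κ, h1, h2⟩ := key Finset.univ
  exact ⟨κ, h1, fun u v huv hp => h2 u (Finset.mem_univ _) v (Finset.mem_univ _) huv hp⟩

end Pool.Agent.Helper3.Sey
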